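import Pool.Agent.W505.T.Cone
import Pool.Agent.W29.GA.Ve

/-!
T8-CNT: few vectors in the cones over few coarse edges (helper505).
-/

set_option autoImplicit false

namespace Pool.Agent.W505.T

open Finset Filter
open Pool.Agent.H376R2.MR
open Pool.Agent.W78.GA
open Pool.Agent.W78.EC (Gi cone aix SP lv TT)
open Pool.Agent.W84.T
open Pool.Agent.W174.EC

/-- the number of vectors in a cone -/
theorem card_cone {X : ℝ} {a b : Gi} (hV : V a b) :
    ((cone X a b).card : ℝ) ≤ Real.sqrt (X / nm a) * Real.sqrt (X / nm b) := by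
  classical
  obtain ⟨p1, p2⟩ := pos_of_dt hV.1
  have q1 : (0 : ℝ) < nm a := by exact_mod_cast p1
  have q2 : (0 : ℝ) < nm b := by exact_mod_cast p2
  have hnm : ∀ z ∈ cone X a b, ((dt z b : ℤ) : ℝ) ^ 2 * nm a ≤ X ∧
      ((dt a z : ℤ) : ℝ) ^ 2 * nm b ≤ X := by
    intro z hz
    rw [mem_cone'] at hz
    obtain ⟨⟨hp, hzX⟩, h1, h2⟩ := hz
    have hre := coord_re' (z := z) hV.1
    have him := coord_im' (z := z) hV.1
    have e : (nm z : ℤ) = dt z b ^ 2 * nm a + dt a z ^ 2 * nm b +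
        2 * (dt z b * dt a z) * ip a b := by
      rw [nmZ, nmZ, nmZ, ipZ]
      obtain ⟨s, hs⟩ : ∃ s, s = dt z b := ⟨_, rfl⟩
      obtain ⟨t, ht⟩ : ∃ t, t = dt a z := ⟨_, rfl⟩
      rw [← hs, ← ht] at hre him ⊢
      rw [hre, him]
      ring
    have h3 : 0 ≤ 2 * (dt z b * dt a z) * ip a b := by
      have := hV.2
      positivity
    have h4 : (0 : ℤ) ≤ dt z b ^ 2 * nm a := by positivity
    have h5 : (0 : ℤ) ≤ dt a z ^ 2 * nm b := by positivity
    have h6 : dt z b ^ 2 * (nm a : ℤ) ≤ nm z := by linarith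
    have h7 : dt a z ^ 2 * (nm b : ℤ) ≤ nm z := by linarith
    have h8 : ((dt z b : ℤ) : ℝ) ^ 2 * nm a ≤ nm z := by exact_mod_cast h6
    have h9 : ((dt a z : ℤ) : ℝ) ^ 2 * nm b ≤ nm z := by exact_mod_cast h7
    exact ⟨h8.trans hzX, h9.trans hzX⟩
  have hb : ∀ (k : ℤ) (m : ℕ), 0 < k → (0 : ℝ) < m → (k : ℝ) ^ 2 * m ≤ X →
      k.toNat ∈ Icc 1 ⌊Real.sqrt (X / m)⌋₊ := by
    intro k m hk hm h
    rw [mem_Icc]
    refine ⟨by omega, Nat.le_floor ?_⟩
    apply Real.le_sqrt_of_sq_le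
    rw [le_div_iff₀ hm]
    have : ((k.toNat : ℕ) : ℝ) = (k : ℝ) := by
      have := Int.toNat_of_nonneg hk.le
      exact_mod_cast this
    rw [this]
    exact h
  have hcard : (cone X a b).card ≤
      (Icc 1 ⌊Real.sqrt (X / nm a)⌋₊ ×ˢ Icc 1 ⌊Real.sqrt (X / nm b)⌋₊).card := by
    refine Finset.card_le_card_of_injOn (fun z => ((dt z b).toNat, (dt a z).toNat)) ?_ ?_
    · intro z hz
      have h1 := hnm z hz
      have hz' := mem_cone'.1 hz
      rw [Finset.mem_coe, mem_product]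
      exact ⟨hb _ _ hz'.2.2 q1 h1.1, hb _ _ hz'.2.1 q2 h1.2⟩
    · intro z hz w hw hzw
      have hz' := mem_cone'.1 hz
      have hw' := mem_cone'.1 hw
      simp only [Prod.mk.injEq] at hzw
      have e1 : dt z b = dt w b := by
        have h1 := hzw.1
        have h2 := hz'.2.2
        have h3 := hw'.2.2
        omega
      have e2 : dt a z = dt a w := by
        have h1 := hzw.2
        have h2 := hz'.2.1
        have h3 := hw'.2.1
        omega
      apply QuadraticAlgebra.ext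
      · rw [coord_re' (z := z) hV.1, coord_re' (z := w) hV.1, e1, e2]
      · rw [coord_im' (z := z) hV.1, coord_im' (z := w) hV.1, e1, e2]
  rw [card_product, Nat.card_Icc, Nat.card_Icc, Nat.add_sub_cancel, Nat.add_sub_cancel] at hcard
  have h1 : ((cone X a b).card : ℝ) ≤
      (⌊Real.sqrt (X / nm a)⌋₊ : ℝ) * (⌊Real.sqrt (X / nm b)⌋₊ : ℝ) := by
    exact_mod_cast hcard
  refine h1.trans (mul_le_mul (Nat.floor_le (Real.sqrt_nonneg _))
    (Nat.floor_le (Real.sqrt_nonneg _)) (Nat.cast_nonneg _) (Real.sqrt_nonneg _))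

/-- the larger norm is at least `Y / 4` -/
theorem max_nm {Y : ℝ} {a b : Gi} (hV : V a b) (hs : Y < (nm (a + b) : ℝ)) :
    Y ≤ 4 * max (nm a : ℝ) (nm b) := by
  have h1 := nm_add' a b
  have h2 := ipdt a b
  have h3 := hV.2
  rw [hV.1] at h2
  obtain ⟨M, hM⟩ : ∃ M : ℤ, M = max (nm a : ℤ) (nm b) := ⟨_, rfl⟩
  have ha : (nm a : ℤ) ≤ M := hM ▸ le_max_left _ _
  have hb : (nm b : ℤ) ≤ M := hM ▸ le_max_right _ _
  have ha0 : (0 : ℤ) ≤ nm a := Int.natCast_nonneg _
  have hb0 : (0 : ℤ) ≤ nm b := Int.natCast_nonneg _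
  have h4 : ip a b ≤ M := by
    by_contra hcon
    push Not at hcon
    nlinarith
  have h5 : (nm (a + b) : ℤ) ≤ 4 * M := by linarith
  have h6 : (nm (a + b) : ℝ) ≤ 4 * (M : ℝ) := by exact_mod_cast h5
  have h7 : (M : ℝ) = max (nm a : ℝ) (nm b) := by
    rw [hM]
    push_cast
    rfl
  rw [← h7]
  linarith

theorem card_cone2 {X Y : ℝ} {a b : Gi} (hY : 0 < Y) (hX : 0 ≤ X) (he : (a, b) ∈ edge 0 1 Y) :
    ((cone X a b).card : ℝ) ≤ 2 * X / Real.sqrt Y *
      (1 / Real.sqrt (min (nm a : ℝ) (nm b))) := by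
  obtain ⟨hV, ha, hb, hs⟩ := V_of_edge he
  obtain ⟨p1, p2⟩ := pos_of_dt hV.1
  have q1 : (0 : ℝ) < nm a := by exact_mod_cast p1
  have q2 : (0 : ℝ) < nm b := by exact_mod_cast p2
  refine (card_cone hV).trans ?_
  have h1 := max_nm hV hs
  have hm0 : 0 < min (nm a : ℝ) (nm b) := lt_min q1 q2
  have h2 : (nm a : ℝ) * nm b = max (nm a : ℝ) (nm b) * min (nm a : ℝ) (nm b) :=
    (max_mul_min _ _).symm
  have h3 : Real.sqrt (X / nm a) * Real.sqrt (X / nm b) = X / Real.sqrt ((nm a : ℝ) * nm b) := by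
    rw [← Real.sqrt_mul (by positivity), div_mul_div_comm, Real.sqrt_div (by positivity),
      Real.sqrt_mul_self hX]
  have h4 : Real.sqrt Y * Real.sqrt (min (nm a : ℝ) (nm b)) ≤
      2 * Real.sqrt ((nm a : ℝ) * nm b) := by
    have e : (2 : ℝ) * Real.sqrt ((nm a : ℝ) * nm b) = Real.sqrt (4 * ((nm a : ℝ) * nm b)) := by
      have e0 : Real.sqrt 4 = 2 := by
        rw [show (4 : ℝ) = 2 ^ 2 by norm_num, Real.sqrt_sq (by norm_num)]
      rw [Real.sqrt_mul (by norm_num : (0 : ℝ) ≤ 4), e0]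
    rw [e, ← Real.sqrt_mul hY.le]
    apply Real.sqrt_le_sqrt
    rw [h2, ← mul_assoc]
    exact mul_le_mul_of_nonneg_right h1 hm0.le
  have h5 : 0 < Real.sqrt ((nm a : ℝ) * nm b) := Real.sqrt_pos.2 (by positivity)
  have h6 : 0 < Real.sqrt Y := Real.sqrt_pos.2 hY
  have h7 : 0 < Real.sqrt (min (nm a : ℝ) (nm b)) := Real.sqrt_pos.2 hm0
  rw [h3, div_mul_div_comm, mul_one, div_le_div_iff₀ h5 (by positivity)]
  calc X * (Real.sqrt Y * Real.sqrt (min (nm a : ℝ) (nm b)))
      ≤ X * (2 * Real.sqrt ((nm a : ℝ) * nm b)) := mul_le_mul_of_nonneg_left h4 hX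
    _ = 2 * X * Real.sqrt ((nm a : ℝ) * nm b) := by ring

theorem dt_anti (a b : Gi) : dt a b = -dt b a := by
  rw [dtZ, dtZ]; ring

theorem inj1 {Y : ℝ} {a b b' : Gi} (h : (a, b) ∈ edge 0 1 Y) (h' : (a, b') ∈ edge 0 1 Y) :
    b = b' := by
  have hV := (V_of_edge h).1.1
  have hV' := (V_of_edge h').1.1
  have key : ∀ {b b' : Gi}, (a, b) ∈ edge 0 1 Y → (a, b') ∈ edge 0 1 Y → 0 ≤ dt b b' →
      b = b' := by
    intro b b' h h' h0
    have hV := (V_of_edge h).1.1
    have hV' := (V_of_edge h').1.1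
    have e1 : dt a (a + b) = 1 := by
      rw [dtZ] at hV ⊢
      rw [re_add', im_add']
      linarith
    have e2 : dt (a + b) b = 1 := by
      rw [dtZ] at hV ⊢
      rw [re_add', im_add']
      linarith
    have e3 : dt (a + b) b' = 1 + dt b b' := by
      rw [dtZ] at hV' ⊢
      rw [re_add', im_add', dtZ]
      linarith
    have := uniq h h' (a + b) (by rw [e1]; norm_num) (by rw [e2]; norm_num)
      (by rw [e1]; norm_num) (by rw [e3]; linarith)
    exact (Prod.mk.inj this).2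
  rcases le_total 0 (dt b b') with h0 | h0
  · exact key h h' h0
  · exact (key h' h (by rw [dt_anti]; linarith)).symm

theorem inj2 {Y : ℝ} {a a' b : Gi} (h : (a, b) ∈ edge 0 1 Y) (h' : (a', b) ∈ edge 0 1 Y) :
    a = a' := by
  have key : ∀ {a a' : Gi}, (a, b) ∈ edge 0 1 Y → (a', b) ∈ edge 0 1 Y → 0 ≤ dt a' a →
      a = a' := by
    intro a a' h h' h0
    have hV := (V_of_edge h).1.1
    have hV' := (V_of_edge h').1.1
    have e1 : dt a (a + b) = 1 := by
      rw [dtZ] at hV ⊢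
      rw [re_add', im_add']
      linarith
    have e2 : dt (a + b) b = 1 := by
      rw [dtZ] at hV ⊢
      rw [re_add', im_add']
      linarith
    have e3 : dt a' (a + b) = 1 + dt a' a := by
      rw [dtZ] at hV' ⊢
      rw [re_add', im_add', dtZ]
      linarith
    have := uniq h h' (a + b) (by rw [e1]; norm_num) (by rw [e2]; norm_num)
      (by rw [e3]; linarith) (by rw [e2]; norm_num)
    exact (Prod.mk.inj this).1
  rcases le_total 0 (dt a' a) with h0 | h0
  · exact key h h' h0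
  · exact (key h' h (by rw [dt_anti]; linarith)).symm

theorem nz {Y : ℝ} {e : Gi × Gi} (he : e ∈ edge 0 1 Y) : e.1 ≠ 0 ∧ e.2 ≠ 0 := by
  obtain ⟨a, b⟩ := e
  have h1 := pos_of_dt (V_of_edge he).1.1
  exact ⟨(one_le_nm hD0).1 h1.1, (one_le_nm hD0).1 h1.2⟩

/-- the sum over the edges -/
theorem sum_edge {Y : ℝ} (E : Finset (Gi × Gi)) (hE : E ⊆ edge 0 1 Y) (R : ℝ) (hR : 0 < R) :
    ∑ e ∈ E, 1 / Real.sqrt (min (nm e.1 : ℝ) (nm e.2)) ≤
      96 * Real.sqrt R + E.card * (1 / Real.sqrt R) := by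
  classical
  have hp : ∀ e ∈ E, (0 : ℝ) < nm e.1 ∧ (0 : ℝ) < nm e.2 := by
    rintro ⟨a, b⟩ he
    have h1 := pos_of_dt (V_of_edge (hE he)).1.1
    constructor
    · have := h1.1
      have h2 : 0 < nm a := this
      exact_mod_cast h2
    · have := h1.2
      have h2 : 0 < nm b := this
      exact_mod_cast h2
  have h1 : ∀ e ∈ E, 1 / Real.sqrt (min (nm e.1 : ℝ) (nm e.2)) ≤
      (if (nm e.1 : ℝ) ≤ R then 1 / Real.sqrt (nm e.1) else 0) +
      (if (nm e.2 : ℝ) ≤ R then 1 / Real.sqrt (nm e.2) else 0) + 1 / Real.sqrt R := by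
    intro e he
    obtain ⟨ha, hb⟩ := hp e he
    have hR' : 0 < Real.sqrt R := Real.sqrt_pos.2 hR
    have hRi : 0 ≤ 1 / Real.sqrt R := by positivity
    have key : ∀ m : ℝ, 0 < m → 1 / Real.sqrt m ≤
        (if m ≤ R then 1 / Real.sqrt m else 0) + 1 / Real.sqrt R := by
      intro m hm
      split_ifs with h
      · linarith
      · rw [zero_add]
        exact one_div_le_one_div_of_le hR' (Real.sqrt_le_sqrt (not_le.1 h).le)
    have hn : ∀ m : ℝ, 0 ≤ (if m ≤ R then 1 / Real.sqrt m else 0) := by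
      intro m
      split_ifs <;> positivity
    rcases le_total (nm e.1 : ℝ) (nm e.2) with h | h
    · rw [min_eq_left h]
      have := key _ ha
      have := hn (nm e.2 : ℝ)
      linarith
    · rw [min_eq_right h]
      have := key _ hb
      have := hn (nm e.1 : ℝ)
      linarith
  refine (Finset.sum_le_sum h1).trans ?_
  rw [Finset.sum_add_distrib, Finset.sum_add_distrib, Finset.sum_const, nsmul_eq_mul,
    ← Finset.sum_filter, ← Finset.sum_filter]
  have h2 : ∑ e ∈ E.filter (fun e => (nm e.1 : ℝ) ≤ R), 1 / Real.sqrt (nm e.1) ≤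
      48 * Real.sqrt R := by
    have h3 := Pool.Agent.W29.GA.sum_inv_sqrt (c := 1) hD0 R
      ((E.filter (fun e => (nm e.1 : ℝ) ≤ R)).image Prod.fst) (by
        intro z hz
        rw [mem_image] at hz
        obtain ⟨e, he, rfl⟩ := hz
        rw [mem_filter] at he
        exact ⟨(nz (hE he.1)).1, he.2⟩)
    rw [Finset.sum_image] at h3
    · push_cast at h3
      linarith
    · rintro ⟨a, b⟩ he ⟨a', b'⟩ he' haa
      have he1 := hE (mem_filter.1 he).1
      have he2 := hE (mem_filter.1 he').1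
      have haa' : a = a' := haa
      subst haa'
      rw [inj1 he1 he2]
  have h4 : ∑ e ∈ E.filter (fun e => (nm e.2 : ℝ) ≤ R), 1 / Real.sqrt (nm e.2) ≤
      48 * Real.sqrt R := by
    have h3 := Pool.Agent.W29.GA.sum_inv_sqrt (c := 1) hD0 R
      ((E.filter (fun e => (nm e.2 : ℝ) ≤ R)).image Prod.snd) (by
        intro z hz
        rw [mem_image] at hz
        obtain ⟨e, he, rfl⟩ := hz
        rw [mem_filter] at he
        exact ⟨(nz (hE he.1)).2, he.2⟩)
    rw [Finset.sum_image] at h3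
    · push_cast at h3
      linarith
    · rintro ⟨a, b⟩ he ⟨a', b'⟩ he' haa
      have he1 := hE (mem_filter.1 he).1
      have he2 := hE (mem_filter.1 he').1
      have haa' : b = b' := haa
      subst haa'
      rw [inj2 he1 he2]
  linarith

theorem cnt (_h : S_CONE) : Pool.Agent.W84.T.S_CNT := by
  refine ⟨194, by norm_num, fun Y X E hY hYX hE => ?_⟩
  have hY0 : 0 < Y := by linarith
  have hX0 : 0 ≤ X := by linarith
  have hYs : 0 < Real.sqrt Y := Real.sqrt_pos.2 hY0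
  push_cast
  rcases Nat.eq_zero_or_pos E.card with h0 | hpos
  · rw [Finset.card_eq_zero] at h0
    subst h0
    simp
  · have hn : (0 : ℝ) < E.card := by exact_mod_cast hpos
    have hns : 0 < Real.sqrt (E.card : ℝ) := Real.sqrt_pos.2 hn
    have h1 : ∑ e ∈ E, ((cone X e.1 e.2).card : ℝ) ≤
        ∑ e ∈ E, 2 * X / Real.sqrt Y * (1 / Real.sqrt (min (nm e.1 : ℝ) (nm e.2))) := by
      refine Finset.sum_le_sum fun e he => ?_
      obtain ⟨a, b⟩ := e
      exact card_cone2 hY0 hX0 (hE he)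
    refine h1.trans ?_
    rw [← Finset.mul_sum]
    have h2 := sum_edge E hE E.card hn
    have h3 : (E.card : ℝ) * (1 / Real.sqrt E.card) = Real.sqrt E.card := by
      rw [mul_one_div, Real.div_sqrt]
    rw [h3] at h2
    calc 2 * X / Real.sqrt Y * ∑ e ∈ E, 1 / Real.sqrt (min (nm e.1 : ℝ) (nm e.2))
        ≤ 2 * X / Real.sqrt Y * (96 * Real.sqrt E.card + Real.sqrt E.card) :=
          mul_le_mul_of_nonneg_left h2 (by positivity)
      _ = 194 * X * Real.sqrt ((E.card : ℝ) / Y) := by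
        rw [Real.sqrt_div hn.le]
        ring

end Pool.Agent.W505.T
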