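import Pool.Agent.W84.T.Defs
import Pool.Agent.W174.EC.Tree2

/-!
T8-CONE: cones over coarse Farey edges (helper505).
-/

set_option autoImplicit false

namespace Pool.Agent.W505.T

open Finset Filter
open Pool.Agent.H376R2.MR
open Pool.Agent.W78.GA
open Pool.Agent.W78.EC (Gi cone aix SP lv TT)
open Pool.Agent.W84.T
open Pool.Agent.W174.EC

theorem mem_cone' {X : ℝ} {a b z : Gi} : z ∈ cone X a b ↔
    (prim z ∧ (nm z : ℝ) ≤ X) ∧ 0 < dt a z ∧ 0 < dt z b := by
  unfold cone
  rw [mem_filter, mem_pball hD0]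

/-- the parents of a primitive vector -/
theorem par {z : Gi} (hz : prim z) (hn : 2 ≤ nm z) : ∃ v u : Gi, V v u ∧ v + u = z := by
  have h1 : IsCoprime z.re z.im := Int.isCoprime_iff_gcd_eq_one.2 hz
  obtain ⟨p, q, hpq⟩ := h1
  obtain ⟨N, hN⟩ : ∃ N : ℤ, N = nm z := ⟨_, rfl⟩
  have hN2 : 2 ≤ N := by rw [hN]; exact_mod_cast hn
  have hNz := nmZ z
  rw [← hN] at hNz
  obtain ⟨m, hm⟩ : ∃ m : ℤ, m = z.re * (-q) + z.im * p := ⟨_, rfl⟩
  obtain ⟨k, hk⟩ : ∃ k : ℤ, k = m / N := ⟨_, rfl⟩
  let u : Gi := ⟨-q - k * z.re, p - k * z.im⟩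
  have hu1 : u.re = -q - k * z.re := rfl
  have hu2 : u.im = p - k * z.im := rfl
  have hdt : z.re * u.im - z.im * u.re = 1 := by
    rw [hu1, hu2]
    linear_combination hpq
  obtain ⟨r, hr⟩ : ∃ r : ℤ, r = z.re * u.re + z.im * u.im := ⟨_, rfl⟩
  have hr1 : r = m % N := by
    rw [hr, hu1, hu2, Int.emod_def, ← hk, hm, hNz]
    ring
  have hr0 : 0 ≤ r := by rw [hr1]; exact Int.emod_nonneg _ (by omega)
  have hrN : r < N := by rw [hr1]; exact Int.emod_lt_of_pos _ (by omega)
  have hu := nmZ u
  have hprod : N * (u.re ^ 2 + u.im ^ 2) = r ^ 2 + 1 := by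
    rw [hNz, hr]
    linear_combination (z.re * u.im - z.im * u.re + 1) * hdt
  have hr2 : 1 ≤ r := by
    by_contra hcon
    have h0 : r = 0 := by omega
    rw [h0] at hprod
    have h3 : (0 : ℤ) ^ 2 + 1 = 1 := by norm_num
    rw [h3] at hprod
    have := Int.eq_one_or_neg_one_of_mul_eq_one hprod
    omega
  have hle : u.re ^ 2 + u.im ^ 2 ≤ r := by
    by_contra hcon
    push Not at hcon
    nlinarith
  refine ⟨z - u, u, ⟨?_, ?_⟩, sub_add_cancel z u⟩
  · rw [dtZ]
    show (z.re - u.re) * u.im - (z.im - u.im) * u.re = 1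
    linear_combination hdt
  · rw [ipZ]
    show 0 ≤ (z.re - u.re) * u.re + (z.im - u.im) * u.im
    nlinarith

theorem coord_re' {a b z : Gi} (h : dt a b = 1) : z.re = dt z b * a.re + dt a z * b.re := by
  rw [dtZ] at h
  rw [dtZ, dtZ]
  linear_combination (-z.re) * h

theorem coord_im' {a b z : Gi} (h : dt a b = 1) : z.im = dt z b * a.im + dt a z * b.im := by
  rw [dtZ] at h
  rw [dtZ, dtZ]
  linear_combination (-z.im) * h

theorem cone' : S_CONE := by
  intro Y X hY
  refine ⟨?_, ?_, ?_⟩
  · rintro ⟨a, b⟩ he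
    obtain ⟨hV, ha, hb, hs⟩ := V_of_edge he
    refine ⟨?_, ?_⟩
    · by_contra hcon
      have h0 : ip a b = 0 := le_antisymm (not_lt.1 hcon) hV.2
      have h1 := ipdt a b
      rw [h0, hV.1] at h1
      have h2 : nm a * nm b = 1 := by
        have : ((nm a * nm b : ℕ) : ℤ) = 1 := by
          push_cast
          rw [← h1]
          norm_num
        exact_mod_cast this
      have h3 := Nat.eq_one_of_mul_eq_one_right h2
      have h4 := Nat.eq_one_of_mul_eq_one_left h2
      have h5 := nm_add' a b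
      rw [h0, h3, h4] at h5
      have h6 : nm (a + b) = 2 := by
        have : (nm (a + b) : ℤ) = 2 := by rw [h5]; norm_num
        exact_mod_cast this
      rw [h6] at hs
      push_cast at hs
      linarith
    · intro z hz
      rw [mem_cone'] at hz
      obtain ⟨⟨hp, -⟩, h1, h2⟩ := hz
      have h1 : 0 < dt a z := h1
      have h2 : 0 < dt z b := h2
      have hre := coord_re' (z := z) hV.1
      have him := coord_im' (z := z) hV.1
      refine ⟨(dt z b).toNat, (dt a z).toNat, ?_, ?_, ?_, ?_⟩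
      · show 1 ≤ (dt z b).toNat
        omega
      · show 1 ≤ (dt a z).toNat
        omega
      · show Nat.Coprime (dt z b).toNat (dt a z).toNat
        have h3 : IsCoprime z.re z.im := Int.isCoprime_iff_gcd_eq_one.2 hp
        obtain ⟨p, q, hpq⟩ := h3
        rw [← Nat.isCoprime_iff_coprime, Int.toNat_of_nonneg h2.le, Int.toNat_of_nonneg h1.le]
        refine ⟨p * a.re + q * a.im, p * b.re + q * b.im, ?_⟩
        linear_combination (-p) * hre - q * him + hpq
      · show z = lc a b ((dt z b).toNat, (dt a z).toNat)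
        have e : lc a b ((dt z b).toNat, (dt a z).toNat) =
            evx (a, b) ((dt z b).toNat, (dt a z).toNat) := rfl
        rw [e]
        apply QuadraticAlgebra.ext
        · rw [evx_re]
          show z.re = ((dt z b).toNat : ℤ) * a.re + ((dt a z).toNat : ℤ) * b.re
          rw [Int.toNat_of_nonneg h2.le, Int.toNat_of_nonneg h1.le]
          exact hre
        · rw [evx_im]
          show z.im = ((dt z b).toNat : ℤ) * a.im + ((dt a z).toNat : ℤ) * b.im
          rw [Int.toNat_of_nonneg h2.le, Int.toNat_of_nonneg h1.le]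
          exact him
  · intro z hz hYz hzX
    have hn : 2 ≤ nm z := by
      have : (2 : ℝ) ≤ (nm z : ℝ) := by linarith
      exact_mod_cast this
    obtain ⟨v, u, hV, hvu⟩ := par hz hn
    obtain ⟨p1, p2⟩ := pos_of_dt hV.1
    have hle := hV.add_le
    have hlt : max (nm v : ℝ) (nm u) < (nm (v + u) : ℝ) := by
      apply max_lt
      · have : nm v < nm (v + u) := by omega
        exact_mod_cast this
      · have : nm u < nm (v + u) := by omega
        exact_mod_cast this
    obtain ⟨e, he, hsub⟩ := descent (fun _ : Gi => ()) Y (max (nm v) (nm u)) hY (nm v + nm u) v u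
      le_rfl hV (by rw [hvu]; exact hYz) (le_max_left _ _) (le_max_right _ _)
    have hmem : (v, u) ∈ lv (TT (fun _ : Gi => ()) (max (nm v) (nm u)) e) e.1 e.2 := by
      apply hsub
      rw [TT_leaf _ _ v u hlt]
      exact List.mem_singleton_self _
    obtain ⟨a, b⟩ := e
    have hVe := (V_of_edge he).1
    obtain ⟨k0, k1, k2, k3, k4⟩ := lv_cone _ a b hVe.1 _ hmem
    simp only at k0 k1 k2 k3 k4
    refine ⟨(a, b), he, ?_⟩
    rw [mem_cone', ← hvu]
    rw [← hvu] at hz hzX
    refine ⟨⟨hz, hzX⟩, ?_⟩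
    have e1 : dt a (v + u) = dt a v + dt a u := by
      rw [dtZ, dtZ, dtZ, re_add', im_add']; ring
    have e2 : dt (v + u) b = dt v b + dt u b := by
      rw [dtZ, dtZ, dtZ, re_add', im_add']; ring
    have h0 := hVe.1
    have e3 : dt v b * dt a u - dt a v * dt u b = 1 := by
      rw [dtZ] at h0 k0
      rw [dtZ, dtZ, dtZ, dtZ]
      linear_combination (v.re * u.im - v.im * u.re) * h0 + k0
    show 0 < dt a (v + u) ∧ 0 < dt (v + u) b
    rw [e1, e2]
    constructor
    · by_contra hc
      push Not at hc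
      have : dt a u = 0 := by linarith
      rw [this] at e3
      nlinarith
    · by_contra hc
      push Not at hc
      have : dt v b = 0 := by linarith
      rw [this] at e3
      nlinarith
  · rintro ⟨a, b⟩ he ⟨a', b'⟩ hf z hz hz'
    rw [mem_cone'] at hz hz'
    exact uniq he hf z hz.2.1 hz.2.2 hz'.2.1 hz'.2.2

end Pool.Agent.W505.T
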