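import Pool.Agent.W84.T.Defs
import Pool.Agent.W174.EC.Tree1

/-!
T8-RIG: rigidity on one cone (helper505).
-/

set_option autoImplicit false

namespace Pool.Agent.W505.T

open Finset Filter
open Pool.Agent.H376R2.MR
open Pool.Agent.W78.GA
open Pool.Agent.W78.EC (Gi cone aix SP)
open Pool.Agent.W84.T
open Pool.Agent.W174.EC (hD0 nmZ ipZ dtZ re_add' im_add' evx evx_re evx_im evx_add V)

/-- Stern-Brocot parents -/
theorem parents : ∀ n : ℕ, ∀ x y : ℕ, x + y ≤ n → Nat.Coprime x y → 1 ≤ x → 1 ≤ y →
    ∃ a b : ℕ × ℕ, a.1 + b.1 = x ∧ a.2 + b.2 = y ∧ (a.1 : ℤ) * b.2 - a.2 * b.1 = 1 := by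
  intro n
  induction n with
  | zero => intro x y h _ hx; omega
  | succ n ih =>
    intro x y h hc hx hy
    rcases lt_trichotomy x y with hlt | heq | hgt
    · have h1 : Nat.Coprime x (y - x) := (Nat.coprime_sub_self_right hlt.le).2 hc
      obtain ⟨a, b, ha, hb, hd⟩ := ih x (y - x) (by omega) h1 hx (by omega)
      refine ⟨(a.1, a.2 + a.1), (b.1, b.2 + b.1), ha, ?_, ?_⟩
      · show a.2 + a.1 + (b.2 + b.1) = y
        omega
      · push_cast
        linear_combination hd
    · subst heq
      have h1 : x = 1 := by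
        rw [Nat.coprime_self] at hc
        exact hc
      subst h1
      exact ⟨(1, 0), (0, 1), rfl, rfl, by norm_num⟩
    · have h1 : Nat.Coprime (x - y) y := (Nat.coprime_sub_self_left hgt.le).2 hc
      obtain ⟨a, b, ha, hb, hd⟩ := ih (x - y) y (by omega) h1 (by omega) hy
      refine ⟨(a.1 + a.2, a.2), (b.1 + b.2, b.2), ?_, hb, ?_⟩
      · show a.1 + a.2 + (b.1 + b.2) = x
        omega
      · push_cast
        linear_combination hd

theorem lc_eq (a b : Gi) (x : ℕ × ℕ) : lc a b x = evx (a, b) x := rfl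

theorem lc_add (a b : Gi) (x y : ℕ × ℕ) : lc a b (x + y) = lc a b x + lc a b y :=
  evx_add (a, b) x y

theorem V_lc {a b : Gi} (hd : dt a b = 1) (hi : 0 ≤ ip a b) (x y : ℕ × ℕ)
    (h : (x.1 : ℤ) * y.2 - x.2 * y.1 = 1) : V (lc a b x) (lc a b y) := by
  have h1 := nmZ a
  have h2 := nmZ b
  have h3 : (0 : ℤ) ≤ nm a := Int.natCast_nonneg _
  have h4 : (0 : ℤ) ≤ nm b := Int.natCast_nonneg _
  rw [dtZ] at hd
  rw [ipZ] at hi
  constructor
  · rw [lc_eq, lc_eq, dtZ, evx_re, evx_im, evx_re, evx_im]
    linear_combination ((x.1 : ℤ) * y.2 - x.2 * y.1) * hd + h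
  · have e : ip (lc a b x) (lc a b y) = (x.1 : ℤ) * y.1 * nm a +
        ((x.1 : ℤ) * y.2 + x.2 * y.1) * (a.re * b.re + a.im * b.im) + (x.2 : ℤ) * y.2 * nm b := by
      rw [lc_eq, lc_eq, ipZ, evx_re, evx_im, evx_re, evx_im, h1, h2]
      ring
    rw [e]
    positivity

theorem lam_sq (n : ℕ) : lam n * lam n = 1 := by
  unfold lam
  rw [← mul_pow]
  norm_num

theorem rig : S_RIG := by
  intro c X a b hc hd hi htg
  have hcc : c * c = 1 := by rcases hc with rfl | rfl <;> norm_num
  have key : ∀ n : ℕ, ∀ x y : ℕ, x + y ≤ n → Nat.Coprime x y → (nm (lc a b (x, y)) : ℝ) ≤ X →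
      c * gl (lc a b (x, y)) = (c * gl a) ^ x * (c * gl b) ^ y := by
    intro n
    induction n with
    | zero =>
      intro x y h hcp
      have hx : x = 0 := by omega
      have hy : y = 0 := by omega
      subst hx hy
      simp at hcp
    | succ n ih =>
      intro x y h hcp hX
      rcases Nat.eq_zero_or_pos x with rfl | hx
      · rw [Nat.coprime_zero_left] at hcp
        subst hcp
        rw [show lc a b (0, 1) = b by
          rw [lc_eq]; exact Pool.Agent.W174.EC.evx_two (a, b)]
        simp
      rcases Nat.eq_zero_or_pos y with rfl | hy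
      · rw [Nat.coprime_zero_right] at hcp
        subst hcp
        rw [show lc a b (1, 0) = a by
          rw [lc_eq]; exact Pool.Agent.W174.EC.evx_one (a, b)]
        simp
      obtain ⟨p, q, h1, h2, hdet⟩ := parents _ x y le_rfl hcp hx hy
      have hV := V_lc hd hi.le p q hdet
      have hsum : lc a b p + lc a b q = lc a b (x, y) := by
        rw [← lc_add]
        congr 1
        exact Prod.ext h1 h2
      have hle := hV.add_le
      rw [hsum] at hle
      have hp0 : p ≠ 0 := by
        rintro rfl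
        simp at hdet
      have hq0 : q ≠ 0 := by
        rintro rfl
        simp at hdet
      have hp1 : 1 ≤ p.1 + p.2 := by
        by_contra hcon
        exact hp0 (Prod.ext (by simp; omega) (by simp; omega))
      have hq1 : 1 ≤ q.1 + q.2 := by
        by_contra hcon
        exact hq0 (Prod.ext (by simp; omega) (by simp; omega))
      have hcp1 : Nat.Coprime p.1 p.2 := by
        rw [← Nat.isCoprime_iff_coprime]
        exact ⟨q.2, -q.1, by linear_combination hdet⟩
      have hcp2 : Nat.Coprime q.1 q.2 := by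
        rw [← Nat.isCoprime_iff_coprime]
        exact ⟨-p.2, p.1, by linear_combination hdet⟩
      have hle1 : nm (lc a b p) ≤ nm (lc a b (x, y)) := by omega
      have hle2 : nm (lc a b q) ≤ nm (lc a b (x, y)) := by omega
      have hX1 : (nm (lc a b p) : ℝ) ≤ X := le_trans (by exact_mod_cast hle1) hX
      have hX2 : (nm (lc a b q) : ℝ) ≤ X := le_trans (by exact_mod_cast hle2) hX
      have i1 := ih p.1 p.2 (by omega) hcp1 hX1
      have i2 := ih q.1 q.2 (by omega) hcp2 hX2
      have ht := htg p q hdet (by rw [hsum]; exact hX)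
      unfold tg at ht
      simp only at ht
      rw [hsum] at ht
      have s1 : gl (lc a b p) * gl (lc a b p) = 1 := lam_sq _
      have s2 : gl (lc a b q) * gl (lc a b q) = 1 := lam_sq _
      have e1 : c * gl (lc a b (x, y)) = (c * gl (lc a b p)) * (c * gl (lc a b q)) := by
        have e2 : gl (lc a b (x, y)) = c * (gl (lc a b p) * gl (lc a b q)) := by
          rw [← ht]
          linear_combination (-gl (lc a b (x, y)) * gl (lc a b q) * gl (lc a b q)) * s1 -
            gl (lc a b (x, y)) * s2
        rw [e2]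
        ring
      rw [e1]
      have i1' : c * gl (lc a b p) = (c * gl a) ^ p.1 * (c * gl b) ^ p.2 := i1
      have i2' : c * gl (lc a b q) = (c * gl a) ^ q.1 * (c * gl b) ^ q.2 := i2
      rw [i1', i2', ← h1, ← h2, pow_add, pow_add]
      ring
  exact fun x y h1 h2 => key _ x y le_rfl h1 h2

end Pool.Agent.W505.T
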